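import Pool.Agent.Helper69.TPF.St1

/-!
TPF MODULE TCO: equality of the numbers of lifts.
-/

set_option autoImplicit false

open scoped commutatorElement ComplexConjugate

namespace Pool.Agent.Helper48.TPF

open Pool.Agent.Helper69.TPF

/-- An idempotent which commutes with the factors. -/
theorem idem_prod {A ι : Type} [Ring A] (e : A) (he : e * e = e) (c : ι → A) (i : ι) (L : List ι)
    (hc : e * c i = c i * e) :
    e * ((i :: L).map c).prod = (e * c i) * (e * (L.map c).prod) := by
  rw [List.map_cons, List.prod_cons]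
  calc e * (c i * (L.map c).prod) = (e * e) * c i * (L.map c).prod := by
        rw [he, mul_assoc]
    _ = e * (e * c i) * (L.map c).prod := by rw [mul_assoc e e]
    _ = e * (c i * e) * (L.map c).prod := by rw [hc]
    _ = (e * c i) * (e * (L.map c).prod) := by simp only [mul_assoc]

theorem factor_ne {A ι : Type} [Ring A] (e : A) (he : e * e = e) (c : ι → A)
    (hc : ∀ i, e * c i = c i * e) (L : List ι) (h : e * (L.map c).prod ≠ 0) :
    ∀ i ∈ L, e * c i ≠ 0 := by
  induction L with
  | nil =>
    intro i hi
    simp at hi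
  | cons j L ih =>
    rw [idem_prod e he c j L (hc j)] at h
    intro i hi
    rcases List.mem_cons.1 hi with rfl | hi
    · intro h0
      exact h (by rw [h0, zero_mul])
    · exact ih (fun h0 => h (by rw [h0, mul_zero])) i hi

theorem main (hadj : St_ADJ) (hgrd : St_GRD) (hide : St_IDE) (hinv : St_INV) (hcab : St_CAB)
    (hfml : St_FML) (hvan : St_VAN) (hext : St_EXT) (hcnt : St_CNT) : St_TCO := by
  intro E G _ _ _ _ π g t t' ht ht' hS x
  classical
  let _ : Fintype E := Fintype.ofFinite E
  obtain ⟨g1, g2, g3, g4, g5, g6, g7, g8⟩ := hgrd E G π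
  obtain ⟨a1, a2, a3, a4, a5, a6, a7, a8, a9⟩ := hadj E G π
  -- the claim
  have key : nE π t = nE π t' := by
    have hGE : Nat.card G ≤ Nat.card E * Nat.card G :=
      Nat.le_mul_of_pos_left _ Nat.card_pos
    have hRel : Rel t = Rel t' := by
      refine hS G (MonoidHom.id G) Function.surjective_id ?_ hGE t t' (fun i => rfl) (fun i => rfl)
      intro z hz
      have hz1 : z = 1 := by simpa using hz
      rw [hz1]
      exact Subgroup.one_mem _
    have hCC : ∀ u : Fin g × Bool → G, CC π (Rel u) (nE π u) := by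
      intro u
      unfold Pool.Agent.Helper69.TPF.Rel nE
      induction List.finRange g with
      | nil => exact g1
      | cons i L ih =>
        rw [List.map_cons, List.prod_cons, List.map_cons, List.prod_cons]
        exact g6 _ _ _ _ (hcab E G π _ _) ih
    by_contra hne
    have hd0 : nE π t - nE π t' ≠ 0 := sub_ne_zero.2 hne
    have hdC : CC π (Rel t) (nE π t - nE π t') := g5 _ _ _ (hCC t) (hRel ▸ hCC t')
    obtain ⟨d, hd⟩ : ∃ d, d = nE π t - nE π t' := ⟨_, rfl⟩
    rw [← hd] at hd0 hdC
    have hyC : CC π 1 (d * adj d) := by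
      have h1 := g6 _ _ _ _ hdC (a9 _ _ hdC)
      rwa [mul_inv_cancel] at h1
    have hy0 : d * adj d ≠ 0 := fun h => hd0 (a7 d h)
    obtain ⟨e, heP, hey⟩ := hide E G π (d * adj d) hyC hy0
    obtain ⟨heC, hee, he0, hePr⟩ := heP
    have hed : e * d ≠ 0 := by
      intro h
      apply hey
      rw [← mul_assoc, h, zero_mul]
    obtain ⟨-, -, hI⟩ := hinv E G π e ⟨heC, hee, he0, hePr⟩
    have hcom : ∀ (u : Fin g × Bool → G) (i : Fin g),
        e * Cab π (u (i, false)) (u (i, true)) = Cab π (u (i, false)) (u (i, true)) * e :=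
      fun u i => g7 _ _ _ heC (hcab E G π _ _)
    -- the subgroup
    let S : Subgroup G :=
      { carrier := {h | ∃ w, CC π h w ∧ e * w ≠ 0}
        one_mem' := ⟨1, g1, by rwa [mul_one]⟩
        mul_mem' := by
          rintro h1 h2 ⟨w1, hw1, hw1'⟩ ⟨w2, hw2, hw2'⟩
          refine ⟨w1 * w2, g6 _ _ _ _ hw1 hw2, fun h0 => hw2' ?_⟩
          obtain ⟨⟨w', -, -, -, -, -, -, hE⟩, -⟩ := hI h1 w1 hw1 hw1'
          rw [← hE, mul_assoc, mul_assoc, h0, mul_zero]
        inv_mem' := by
          rintro h ⟨w, hw, hw'⟩
          obtain ⟨⟨w', hC, -, -, hE3, -, hE5, -⟩, -⟩ := hI h w hw hw'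
          refine ⟨w', hC, ?_⟩
          rw [hE3]
          intro h0
          rw [h0, mul_zero] at hE5
          exact he0 hE5.symm }
    have hStop : ∀ u : Fin g × Bool → G, Gen u → e * nE π u ≠ 0 → S = ⊤ := by
      intro u hu hne'
      have h1 := factor_ne e hee (fun i : Fin g => Cab π (u (i, false)) (u (i, true)))
        (hcom u) (List.finRange g) hne'
      rw [← top_le_iff, ← hu, Subgroup.closure_le]
      rintro _ ⟨⟨i, b⟩, rfl⟩
      have h2 := hvan E G π e ⟨heC, hee, he0, hePr⟩ _ _ (h1 i (List.mem_finRange i))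
      cases b with
      | false => exact h2.1
      | true => exact h2.2
    have hTop : S = ⊤ := by
      by_contra hS'
      have h1 : e * nE π t = 0 := by
        by_contra h0
        exact hS' (hStop t ht h0)
      have h2 : e * nE π t' = 0 := by
        by_contra h0
        exact hS' (hStop t' ht' h0)
      apply hed
      rw [hd, mul_sub, h1, h2, sub_zero]
    have hall : ∀ h : G, ∃ w, CC π h w ∧ e * w ≠ 0 := by
      intro h
      have h1 : h ∈ S := hTop ▸ Subgroup.mem_top h
      exact h1
    obtain ⟨Γ, _, _, p, val, hp, hker, hcard, v1, v2, v3, v4⟩ :=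
      hext E G π e ⟨heC, hee, he0, hePr⟩ hall
    have v5 : ∀ γ, val γ * e = val γ := by
      intro γ
      rw [← v4, ← v3, mul_one]
    have hEI : ∀ γ, EInv e (val γ) (val γ⁻¹) := by
      intro γ
      refine ⟨v2 γ, v5 γ, v2 _, v5 _, ?_, ?_⟩
      · rw [← v3, mul_inv_cancel, v4]
      · rw [← v3, inv_mul_cancel, v4]
    have hform : ∀ (u : Fin g × Bool → G) (s : Fin g × Bool → Γ), (∀ i, p (s i) = u i) →
        e * nE π u = (((Nat.card π.ker : ℂ) / tau e) ^ (List.finRange g).length) • val (Rel s) := by
      intro u s hs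
      unfold Pool.Agent.Helper69.TPF.Rel nE
      induction List.finRange g with
      | nil => simp [v4]
      | cons i L ih =>
        have h1 : e * Cab π (u (i, false)) (u (i, true)) =
            ((Nat.card π.ker : ℂ) / tau e) • val ⁅s (i, false), s (i, true)⁆ := by
          have hva := v1 (s (i, false))
          have hva' := v1 (s (i, false))⁻¹
          have hvb := v1 (s (i, true))
          have hvb' := v1 (s (i, true))⁻¹
          rw [map_inv] at hva' hvb'
          rw [hs] at hva hva' hvb hvb'
          rw [hfml E G π e ⟨heC, hee, he0, hePr⟩ _ _ _ _ _ _ hva hva' (hEI _) hvb hvb' (hEI _),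
            commutatorElement_def, v3, v3, v3]
        rw [idem_prod e hee (fun i : Fin g => Cab π (u (i, false)) (u (i, true))) i L (hcom u i)]
        rw [h1, ih, List.map_cons, List.prod_cons, v3, List.length_cons, pow_succ',
          smul_mul_smul_comm]
    choose f hf using hp
    apply hed
    rw [hd, mul_sub, hform t (fun i => f (t i)) (fun i => hf _),
      hform t' (fun i => f (t' i)) (fun i => hf _),
      hS Γ p (fun h => ⟨f h, hf h⟩) hker hcard (fun i => f (t i)) (fun i => f (t' i))
        (fun i => hf _) (fun i => hf _), sub_self]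
  have h1 := hcnt E G π g t x
  have h2 := hcnt E G π g t' x
  rw [key, h2] at h1
  exact_mod_cast h1.symm

theorem cTCO (adj : St_ADJ) (grd : St_GRD) (ide : St_IDE) (inv : St_INV) (cab : St_CAB)
    (fml : St_FML) (van : St_VAN) (ext : St_EXT) (cnt : St_CNT) : St_TCO :=
  main adj grd ide inv cab fml van ext cnt

end Pool.Agent.Helper48.TPF
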